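import Pool.Agent.H529R2.Pot
import Pool.Agent.H622R2.CoNP

/-!
# The bonus of a coin string is computable in polynomial time
-/

namespace Pool.Agent.H529R2

open Finset Pool.Agent.NPC

/-- The `i`-th block of length `b` of a list. -/
def getBlock (b i : ℕ) (l : List Bool) : List Bool :=
  (List.range b).map (fun j => l.getD (j + b * i) false)

theorem getBlock_ofFn {t b : ℕ} (r : Fin (t * b) → Bool) (i : Fin t) :
    getBlock b i (List.ofFn r) = List.ofFn (blk r i) := by
  apply List.ext_getElem
  · simp [getBlock]
  · intro j h1 h2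
    have hj : j < b := by simpa [getBlock] using h1
    have hlt : j + b * (i : ℕ) < t * b := by
      have := (finProdFinEquiv (i, (⟨j, hj⟩ : Fin b))).2
      simpa [finProdFinEquiv] using this
    simp only [getBlock, List.getElem_map, List.getElem_range, List.getElem_ofFn, blk]
    rw [List.getD_eq_getElem?_getD, List.getElem?_eq_getElem (by simpa using hlt)]
    simp only [List.getElem_ofFn, Option.getD_some]
    congr 1

/-- The number of ones of a list. -/
def ones (l : List Bool) : ℕ := (l.filter (fun c => c)).length

theorem ones_ofFn {m : ℕ} (r : Fin m → Bool) : ones (List.ofFn r) = wt r := by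
  induction m with
  | zero =>
    simp [ones, wt]
  | succ m ih =>
    rw [List.ofFn_succ]
    have h1 : wt r = (if r 0 = true then 1 else 0) + wt (fun i => r (Fin.succ i)) := by
      rw [wt_eq_sum, wt_eq_sum, Fin.sum_univ_succ]
    rw [h1, ← ih]
    unfold ones
    cases r 0 <;> simp [Nat.add_comm]

/-- Does the machine accept with one of the sub-blocks as coins? -/
def anyAcc (V : List Bool → List Bool) (k u : ℕ) (x s : List Bool) : Bool :=
  (List.range u).any (fun i => decide (V (pairBits x (getBlock k i s)) = [true]))

/-- The number of balanced blocks with an accepting sub-block in it or in its complement. -/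
def eL (V : List Bool → List Bool) (k u b t : ℕ) (x l : List Bool) : ℕ :=
  ((List.range t).filter (fun i => decide (2 * ones (getBlock b i l) = b) &&
    (anyAcc V k u x (getBlock b i l) || anyAcc V k u x ((getBlock b i l).map (fun c => !c))))).length

/-- The block predicate. -/
def FB (V : List Bool → List Bool) (k u : ℕ) (x : List Bool) {b : ℕ} (s : Fin b → Bool) : Bool :=
  anyAcc V k u x (List.ofFn s) || anyAcc V k u x (List.ofFn (neg s))

theorem FB_neg (V : List Bool → List Bool) (k u : ℕ) (x : List Bool) {b : ℕ}
    (s : Fin b → Bool) : FB V k u x (neg s) = FB V k u x s := by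
  unfold FB
  rw [neg_neg, Bool.or_comm]

theorem eL_ofFn (V : List Bool → List Bool) (k u b t : ℕ) (x : List Bool)
    (r : Fin (t * b) → Bool) : eL V k u b t x (List.ofFn r) = bonus (FB V k u x) r := by
  have h1 : bonus (FB V k u x) r = (univ.filter (fun i : Fin t =>
      2 * wt (blk r i) = b ∧ FB V k u x (blk r i) = true)).card := by
    rw [card_filter]
    rfl
  rw [h1, eL]
  have h2 : (List.range t).filter (fun i => decide (2 * ones (getBlock b i (List.ofFn r)) = b) &&
      (anyAcc V k u x (getBlock b i (List.ofFn r)) ||
        anyAcc V k u x ((getBlock b i (List.ofFn r)).map (fun c => !c)))) =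
      ((List.finRange t).filter (fun i => decide (2 * wt (blk r i) = b ∧
        FB V k u x (blk r i) = true))).map (fun i : Fin t => (i : ℕ)) := by
    rw [← List.map_coe_finRange_eq_range, List.filter_map]
    congr 1
    apply List.filter_congr
    intro i _
    simp only [Function.comp]
    rw [getBlock_ofFn, ones_ofFn, List.map_ofFn]
    unfold FB
    rw [Bool.decide_and, Bool.decide_eq_true]
    rfl
  rw [h2, List.length_map]
  rfl

/-! ### Polynomial time -/

section Poly

variable {α : Type} [TEnc α]

theorem poly_getBlock {b i : α → ℕ} {l : α → List Bool} (hb : UPoly b) (hi : Poly i)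
    (hl : Poly l) : Poly (fun a => getBlock (b a) (i a) (l a)) :=
  NPC.Poly.map (F := fun a j => (l a).getD (j + b a * i a) false) hb.range
    (Poly.getD (hl.comp (Poly.fst Poly.id)) (Poly.add (Poly.snd Poly.id)
      (Poly.mul (hb.toPoly.comp (Poly.fst Poly.id)) (hi.comp (Poly.fst Poly.id))))
      (NPC.Poly.const false))

theorem poly_ones {l : α → List Bool} (hl : Poly l) : Poly (fun a => ones (l a)) :=
  Poly.length (Poly.filter (p := fun _ c => c) hl (Poly.snd Poly.id))

theorem poly_anyAcc {V : List Bool → List Bool} (hV : PolyTime V) {k u : α → ℕ}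
    {x s : α → List Bool} (hk : UPoly k) (hu : UPoly u) (hx : Poly x) (hs : Poly s) :
    Poly (fun a => anyAcc V (k a) (u a) (x a) (s a)) :=
  Poly.any (p := fun a i => decide (V (pairBits (x a) (getBlock (k a) i (s a))) = [true]))
    hu.range (Poly.decide_eq ((H622R2.poly_of_polyTime hV).comp
      (H622R2.poly_pairBits (hx.comp (Poly.fst Poly.id))
        (poly_getBlock (hk.comp (Poly.fst Poly.id)) (Poly.snd Poly.id)
          (hs.comp (Poly.fst Poly.id))))) (NPC.Poly.const _))

theorem poly_eL {V : List Bool → List Bool} (hV : PolyTime V) {k u b t : α → ℕ}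
    {x l : α → List Bool} (hk : UPoly k) (hu : UPoly u) (hb : UPoly b) (ht : UPoly t)
    (hx : Poly x) (hl : Poly l) : Poly (fun a => eL V (k a) (u a) (b a) (t a) (x a) (l a)) := by
  have hblk : Poly (fun p : α × ℕ => getBlock (b p.1) p.2 (l p.1)) :=
    poly_getBlock (hb.comp (Poly.fst Poly.id)) (Poly.snd Poly.id) (hl.comp (Poly.fst Poly.id))
  have hk' : UPoly (fun p : α × ℕ => k p.1) := hk.comp (Poly.fst Poly.id)
  have hu' : UPoly (fun p : α × ℕ => u p.1) := hu.comp (Poly.fst Poly.id)
  have hx' : Poly (fun p : α × ℕ => x p.1) := hx.comp (Poly.fst Poly.id)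
  exact Poly.length (Poly.filter (p := fun a i => decide (2 * ones (getBlock (b a) i (l a)) = b a) &&
    (anyAcc V (k a) (u a) (x a) (getBlock (b a) i (l a)) ||
      anyAcc V (k a) (u a) (x a) ((getBlock (b a) i (l a)).map (fun c => !c)))) ht.range
    (Poly.and (Poly.decide_eq (Poly.mul (NPC.Poly.const 2) (poly_ones hblk))
      (hb.toPoly.comp (Poly.fst Poly.id)))
      (Poly.or (poly_anyAcc hV hk' hu' hx' hblk)
        (poly_anyAcc hV hk' hu' hx' (NPC.Poly.map (F := fun _ c => !c) hblk
          (Poly.not (Poly.snd Poly.id)))))))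

end Poly

end Pool.Agent.H529R2
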