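import Pool.Agent.H529R2.Defs
import Pool.Agent.H529R2.Code

/-!
# Dummy coins, repetition, and the main tool
-/

namespace Pool.Agent.H529R2

open Finset Pool.Agent.NPC

theorem mem_accepts {V : List Bool → List Bool} {x : List Bool} {m : ℕ} {r : Fin m → Bool} :
    r ∈ accepts V x m ↔ V (pairBits x (List.ofFn r)) = [true] := by
  simp [accepts]

/-- Dummy coins. -/
theorem card_append (k j : ℕ) (P : (Fin k → Bool) → Prop) [DecidablePred P] :
    (univ.filter (fun r : Fin (k + j) → Bool => P (fun i => r (Fin.castAdd j i)))).card =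
      (univ.filter P).card * 2 ^ j := by
  have h1 : (univ.filter (fun r : Fin (k + j) → Bool => P (fun i => r (Fin.castAdd j i)))).card =
      (univ.filter P ×ˢ (univ : Finset (Fin j → Bool))).card := by
    refine Finset.card_bij' (fun r _ => (Fin.appendEquiv k j).symm r)
      (fun s _ => Fin.appendEquiv k j s) ?_ ?_ ?_ ?_
    · intro r hr
      rw [mem_filter] at hr
      rw [mem_product, mem_filter]
      exact ⟨⟨mem_univ _, hr.2⟩, mem_univ _⟩
    · intro s hs
      rw [mem_product, mem_filter] at hs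
      rw [mem_filter]
      refine ⟨mem_univ _, ?_⟩
      have h2 : (fun i => (Fin.appendEquiv k j) s (Fin.castAdd j i)) = s.1 := by
        funext i
        exact Fin.append_left _ _ _
      rw [h2]
      exact hs.1.2
    · intro r _
      exact Equiv.apply_symm_apply _ _
    · intro s _
      exact Equiv.symm_apply_apply _ _
  rw [h1, card_product, card_univ]
  simp

/-- The list of a string, with the last coins dropped. -/
theorem take_ofFn {k j : ℕ} (r : Fin (k + j) → Bool) :
    (List.ofFn r).take k = List.ofFn (fun i => r (Fin.castAdd j i)) := by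
  rw [List.ofFn_add]
  exact List.take_left' (by simp)

theorem poly_take {α β : Type} [TEnc α] [TEnc β] {n : α → ℕ} {l : α → List β} (hn : UPoly n)
    (hl : Poly l) : Poly (fun a => (l a).take (n a)) := by
  refine (NPC.Poly.map (F := fun _ (p : Unit × β) => p.2)
    (Poly.zip (l := fun a => List.replicate (n a) ()) hn hl)
    (Poly.snd (Poly.snd Poly.id))).congr fun a => ?_
  apply List.ext_getElem
  · simp
  · intro i h1 h2
    simp

theorem card_rej {V : List Bool → List Bool} {x : List Bool} {m : ℕ}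
    (h : 2 ^ m ≤ 2 * (accepts V x m).card) : 2 * (accepts V x m)ᶜ.card ≤ 2 ^ m := by
  have h1 := card_add_card_compl (accepts V x m)
  simp only [Fintype.card_fun, Fintype.card_bool, Fintype.card_fin] at h1
  omega

/-- A language in `RP` has machines with any larger polynomial number of coins. -/
theorem InRP.pad {L : Set (List Bool)} (h : InRP L) :
    ∃ p : Polynomial ℕ, ∀ P : Polynomial ℕ, (∀ n, p.eval n ≤ P.eval n) →
      ∃ V : List Bool → List Bool, PolyTime V ∧ ∀ x : List Bool,
      (x ∉ L → accepts V x (P.eval x.length) = ∅) ∧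
      (x ∈ L → 2 ^ P.eval x.length ≤ 2 * (accepts V x (P.eval x.length)).card) := by
  obtain ⟨V, p, hV, hVL⟩ := h
  refine ⟨p, fun P hP => ⟨fun y => V (pairBits (unpair y).1
    ((unpair y).2.take (p.eval (unpair y).1.length))), ?_, ?_⟩⟩
  · exact H622R2.polyTime_of_poly_list ((H622R2.poly_of_polyTime hV).comp
      (H622R2.poly_pairBits (Poly.fst poly_unpair)
        (poly_take (UPoly.eval (UPoly.length (Poly.fst poly_unpair)) p) (Poly.snd poly_unpair))))
  · intro x
    obtain ⟨j, hj⟩ := Nat.exists_eq_add_of_le (hP x.length)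
    rw [hj]
    have h2 : ∀ r : Fin (p.eval x.length + j) → Bool,
        r ∈ accepts (fun y => V (pairBits (unpair y).1
          ((unpair y).2.take (p.eval (unpair y).1.length)))) x
          (p.eval x.length + j) ↔ (fun i => r (Fin.castAdd j i)) ∈ accepts V x (p.eval x.length) := by
      intro r
      rw [mem_accepts, mem_accepts]
      simp only [unpair_pairBits]
      rw [take_ofFn]
    obtain ⟨h3, h4⟩ := hVL x
    constructor
    · intro hx
      rw [eq_empty_iff_forall_notMem]
      intro r hr
      rw [h2, h3 hx] at hr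
      exact absurd hr (notMem_empty _)
    · intro hx
      have h5 : (accepts (fun y => V (pairBits (unpair y).1
          ((unpair y).2.take (p.eval (unpair y).1.length)))) x
          (p.eval x.length + j)).card = (accepts V x (p.eval x.length)).card * 2 ^ j := by
        have h6 := card_append (p.eval x.length) j
          (fun r => V (pairBits x (List.ofFn r)) = [true])
        rw [← accepts] at h6
        rw [← h6]
        congr 1
        ext r
        rw [h2 r, mem_accepts]
        simp
      rw [h5, pow_add]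
      have := h4 hx
      have h7 := Nat.mul_le_mul_right (2 ^ j) this
      rw [mul_assoc] at h7
      exact h7

/-- Few strings have no accepting sub-block. -/
theorem card_FB {V : List Bool → List Bool} {x : List Bool} {k u : ℕ}
    (h : 2 ^ k ≤ 2 * (accepts V x k).card) :
    (univ.filter (fun s : Fin (u * k) → Bool => FB V k u x s = false)).card * 2 ^ u ≤
      2 ^ (u * k) := by
  have h1 : (univ.filter (fun s : Fin (u * k) → Bool => FB V k u x s = false)).card ≤
      (univ.filter (fun s : Fin (u * k) → Bool => ∀ i, blk s i ∈ (accepts V x k)ᶜ)).card := by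
    refine card_le_card fun s hs => ?_
    rw [mem_filter] at hs ⊢
    refine ⟨mem_univ _, fun i => ?_⟩
    rw [mem_compl, mem_accepts]
    intro hacc
    have h2 := hs.2
    unfold FB at h2
    rw [Bool.or_eq_false_iff] at h2
    have h3 := h2.1
    unfold anyAcc at h3
    rw [List.any_eq_false] at h3
    have h4 := h3 (i : ℕ) (by simp)
    rw [getBlock_ofFn] at h4
    simp [hacc] at h4
  have h2 := card_blk u k (fun g => ∀ i, g i ∈ (accepts V x k)ᶜ)
  have h3 : (univ.filter (fun g : Fin u → Fin k → Bool => ∀ i, g i ∈ (accepts V x k)ᶜ)) =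
      Fintype.piFinset (fun _ => (accepts V x k)ᶜ) := by
    ext g
    simp [Fintype.mem_piFinset]
  rw [h3, Fintype.card_piFinset_const] at h2
  have h4 := card_rej h
  calc _ ≤ ((accepts V x k)ᶜ.card) ^ u * 2 ^ u := Nat.mul_le_mul_right _ (h1.trans h2.le)
    _ = (2 * (accepts V x k)ᶜ.card) ^ u := by rw [← mul_pow, mul_comm]
    _ ≤ (2 ^ k) ^ u := Nat.pow_le_pow_left h4 u
    _ = 2 ^ (u * k) := by rw [← pow_mul, mul_comm]

theorem FB_zero {V : List Bool → List Bool} {x : List Bool} {k u : ℕ}
    (h : accepts V x k = ∅) (s : Fin (u * k) → Bool) : FB V k u x s = false := by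
  have key : ∀ s : Fin (u * k) → Bool, anyAcc V k u x (List.ofFn s) = false := by
    intro s
    unfold anyAcc
    rw [List.any_eq_false]
    intro i hi
    rw [List.mem_range] at hi
    have h1 := getBlock_ofFn s ⟨i, hi⟩
    simp only at h1
    rw [h1]
    simp only [decide_eq_true_eq]
    intro hacc
    rw [← mem_accepts, h] at hacc
    exact absurd hacc (notMem_empty _)
  unfold FB
  rw [key s, key (neg s)]
  rfl

theorem two_pow_ge (n : ℕ) : 2 * (n + 1) ≤ 2 ^ (n + 1) := by
  induction n with
  | zero => norm_num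
  | succ n ih =>
    rw [pow_succ]
    omega

theorem params (k : ℕ) : 2 * (2 * (k + 1) * k) ≤ 2 ^ (2 * (k + 1)) := by
  have h1 := two_pow_ge k
  have h2 : 2 * (2 * (k + 1) * k) ≤ (2 * (k + 1)) * (2 * (k + 1)) := by nlinarith
  refine h2.trans ?_
  rw [two_mul (k + 1), pow_add, ← two_mul (k + 1)]
  exact Nat.mul_le_mul h1 h1

/-- the block length -/
noncomputable def bP (P : Polynomial ℕ) : Polynomial ℕ := 2 * (P + 1) * P

/-- half of the number of coins, rounded down -/
noncomputable def hP (P q : Polynomial ℕ) : Polynomial ℕ := 512 * (bP P) ^ 5 * (q + 1)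

/-- the radius of the window -/
noncomputable def dP (P q : Polynomial ℕ) : Polynomial ℕ := 128 * (bP P) ^ 3 * (q + 1)

theorem bP_eval (P : Polynomial ℕ) (n : ℕ) :
    (bP P).eval n = 2 * (P.eval n + 1) * P.eval n := by
  simp [bP]

theorem hP_eval (P q : Polynomial ℕ) (n : ℕ) :
    (hP P q).eval n = 512 * ((bP P).eval n) ^ 5 * (q.eval n + 1) := by
  simp [hP]

theorem dP_eval (P q : Polynomial ℕ) (n : ℕ) :
    (dP P q).eval n = 128 * ((bP P).eval n) ^ 3 * (q.eval n + 1) := by
  simp [dP]

theorem bP_pos {P : Polynomial ℕ} {n : ℕ} (h : 0 < P.eval n) : 0 < (bP P).eval n := by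
  rw [bP_eval]
  positivity

theorem dP_pos {P q : Polynomial ℕ} {n : ℕ} (h : 0 < P.eval n) : 0 < (dP P q).eval n := by
  rw [dP_eval]
  have := bP_pos h
  positivity

/-- Strings with an even number of coins: the main tool. -/
theorem master_even {L : Set (List Bool)} (hL : InRP L) :
    ∃ p : Polynomial ℕ, ∀ P : Polynomial ℕ, (∀ n, p.eval n ≤ P.eval n) → (∀ n, 0 < P.eval n) →
      ∀ q : Polynomial ℕ,
      ∃ e : List Bool → List Bool → ℕ,
      Poly (fun a : List Bool × List Bool => e a.1 a.2) ∧
      ∀ (x : List Bool) (m : ℕ), m = 2 * (hP P q).eval x.length →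
      (x ∉ L → ∀ r : Fin m → Bool, e x (List.ofFn r) = 0) ∧
      (∀ r r' : Fin m → Bool, r ≤ r' →
        wt r + e x (List.ofFn r) ≤ wt r' + e x (List.ofFn r')) ∧
      (∀ r : Fin m → Bool, e x (List.ofFn (neg r)) = e x (List.ofFn r)) ∧
      (x ∈ L → (univ.filter (fun r : Fin m → Bool =>
        e x (List.ofFn r) ≤ 2 * (dP P q).eval x.length)).card * 2 ^ q.eval x.length ≤ 2 ^ m) ∧
      ((univ.filter (fun r : Fin m → Bool =>
        m + 2 * (dP P q).eval x.length ≤ 2 * wt r)).card * 2 ^ q.eval x.length ≤ 2 ^ m) ∧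
      ((univ.filter (fun r : Fin m → Bool =>
        2 * wt r + 2 * (dP P q).eval x.length ≤ m)).card * 2 ^ q.eval x.length ≤ 2 ^ m) := by
  obtain ⟨p, hp⟩ := hL.pad
  refine ⟨p, fun P hP1 hP2 q => ?_⟩
  obtain ⟨V, hV, hVL⟩ := hp P hP1
  set t : Polynomial ℕ := 1024 * (bP P) ^ 4 * (q + 1) with ht
  have et : ∀ n, t.eval n = 1024 * ((bP P).eval n) ^ 4 * (q.eval n + 1) := by
    intro n; rw [ht]; simp
  refine ⟨fun x l => eL V (P.eval x.length) ((2 * (P + 1)).eval x.length)
    ((bP P).eval x.length) (t.eval x.length) x l, ?_, ?_⟩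
  · have hl : UPoly (fun a : List Bool × List Bool => a.1.length) :=
      UPoly.length (Poly.fst Poly.id)
    exact poly_eL hV (hl.eval P) (hl.eval (2 * (P + 1))) (hl.eval (bP P)) (hl.eval t)
      (Poly.fst Poly.id) (Poly.snd Poly.id)
  · intro x m hm
    obtain ⟨k, hk⟩ : ∃ k, k = P.eval x.length := ⟨_, rfl⟩
    obtain ⟨u, hu⟩ : ∃ u, u = (2 * (P + 1)).eval x.length := ⟨_, rfl⟩
    obtain ⟨b, hb⟩ : ∃ b, b = (bP P).eval x.length := ⟨_, rfl⟩
    obtain ⟨t', ht'⟩ : ∃ t', t' = t.eval x.length := ⟨_, rfl⟩
    obtain ⟨Q, hQ⟩ : ∃ Q, Q = q.eval x.length + 1 := ⟨_, rfl⟩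
    have huk : u = 2 * (k + 1) := by rw [hu, hk]; simp
    have hbk : b = u * k := by rw [hb, bP_eval, huk, hk]
    have hbpos : 0 < b := by rw [hb]; exact bP_pos (hP2 _)
    have hbev : Even b := by
      rw [hbk, huk, mul_assoc]
      exact even_two_mul _
    have htt : t' = 1024 * b ^ 4 * Q := by rw [ht', et, hb, hQ]
    have hmt : m = t' * b := by
      rw [hm, hP_eval, htt, ← hb, ← hQ]
      ring
    have hd : 2 * (dP P q).eval x.length = 256 * b ^ 3 * Q := by
      rw [dP_eval, ← hb, ← hQ]
      ring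
    have hpow : 2 ^ q.eval x.length ≤ 2 ^ Q := Nat.pow_le_pow_right (by norm_num) (by omega)
    obtain ⟨h1, h2⟩ := hVL x
    rw [← hk] at h1 h2
    beta_reduce
    rw [← hk, ← hu, ← hb, ← ht', hd]
    clear hd ht' hb hu hm
    subst hmt
    subst hbk
    simp only [eL_ofFn]
    refine ⟨?_, ?_, ?_, ?_, ?_, ?_⟩
    · intro hx r
      exact bonus_zero (fun s => FB_zero (h1 hx) s) r
    · intro r r' hr
      exact pot_mono _ hr
    · intro r
      exact bonus_neg (fun s => FB_neg V k u x s) r
    · intro hx
      have h3 := card_FB (u := u) (h2 hx)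
      have h4 : 2 * (u * k) ≤ 2 ^ u := by
        rw [huk]
        exact params k
      have h5 := few_small_bonus hbpos hbev (FB V k u x)
        (le_trans (Nat.mul_le_mul_left _ h4) h3) Q t' htt
      exact (Nat.mul_le_mul_left _ hpow).trans h5
    · have h5 := few_heavy hbpos Q t' htt
      exact (Nat.mul_le_mul_left _ hpow).trans h5
    · have h5 := few_light hbpos Q t' htt
      exact (Nat.mul_le_mul_left _ hpow).trans h5

/-- The last coin is a dummy coin: weights. -/
theorem wt_last {m : ℕ} (r : Fin (m + 1) → Bool) :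
    wt r = wt (fun i => r (Fin.castAdd 1 i)) + (if r (Fin.last m) = true then 1 else 0) := by
  rw [wt_eq_sum, wt_eq_sum, Fin.sum_univ_castSucc]
  rfl

/-- The main tool: a bonus computable in polynomial time, which vanishes for inputs outside of the
language and is usually large for inputs in the language.  The number of coins is odd. -/
theorem master {L : Set (List Bool)} (hL : InRP L) :
    ∃ p : Polynomial ℕ, ∀ P : Polynomial ℕ, (∀ n, p.eval n ≤ P.eval n) → (∀ n, 0 < P.eval n) →
      ∀ q : Polynomial ℕ,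
      ∃ e : List Bool → List Bool → ℕ,
      Poly (fun a : List Bool × List Bool => e a.1 a.2) ∧
      ∀ (x : List Bool) (m : ℕ), m = 2 * (hP P q).eval x.length + 1 →
      (x ∉ L → ∀ r : Fin m → Bool, e x (List.ofFn r) = 0) ∧
      (∀ r r' : Fin m → Bool, r ≤ r' →
        wt r + e x (List.ofFn r) ≤ wt r' + e x (List.ofFn r')) ∧
      (∀ r : Fin m → Bool, e x (List.ofFn (neg r)) = e x (List.ofFn r)) ∧
      (x ∈ L → (univ.filter (fun r : Fin m → Bool =>
        e x (List.ofFn r) ≤ 2 * (dP P q).eval x.length)).card * 2 ^ q.eval x.length ≤ 2 ^ m) ∧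
      ((univ.filter (fun r : Fin m → Bool =>
        m + 2 * (dP P q).eval x.length ≤ 2 * wt r)).card * 2 ^ q.eval x.length ≤ 2 ^ m) ∧
      ((univ.filter (fun r : Fin m → Bool =>
        2 * wt r + 2 * (dP P q).eval x.length ≤ m)).card * 2 ^ q.eval x.length ≤ 2 ^ m) := by
  obtain ⟨p, hp⟩ := master_even hL
  refine ⟨p, fun P hP1 hP2 q => ?_⟩
  obtain ⟨e, he, heL⟩ := hp P hP1 hP2 q
  refine ⟨fun x l => e x (l.take (2 * (hP P q).eval x.length)), ?_, ?_⟩
  · have hl : UPoly (fun a : List Bool × List Bool => a.1.length) :=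
      UPoly.length (Poly.fst Poly.id)
    exact he.comp (Poly.pair (Poly.fst Poly.id) (poly_take (UPoly.mul (UPoly.const 2)
      (hl.eval (hP P q))) (Poly.snd Poly.id)))
  · intro x m hm
    obtain ⟨k, hk⟩ : ∃ k, k = 2 * (hP P q).eval x.length := ⟨_, rfl⟩
    rw [← hk] at hm
    subst hm
    obtain ⟨h1, h2, h3, h4, h5, h6⟩ := heL x k hk
    beta_reduce
    rw [← hk]
    simp only [take_ofFn]
    have hev : Even k := by rw [hk]; exact even_two_mul _
    have hmul : ∀ P : (Fin k → Bool) → Prop, ∀ _ : DecidablePred P, ∀ Q : ℕ,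
        (univ.filter P).card * 2 ^ Q ≤ 2 ^ k →
        (univ.filter (fun r : Fin (k + 1) → Bool => P (fun i => r (Fin.castAdd 1 i)))).card *
          2 ^ Q ≤ 2 ^ (k + 1) := by
      intro P _ Q hPQ
      rw [card_append, pow_one, pow_succ]
      calc (univ.filter P).card * 2 * 2 ^ Q = (univ.filter P).card * 2 ^ Q * 2 := by ring
        _ ≤ 2 ^ k * 2 := Nat.mul_le_mul_right _ hPQ
    refine ⟨fun hx r => h1 hx _, ?_, fun r => h3 _, fun hx => hmul _ _ _ (h4 hx), ?_, ?_⟩
    · intro r r' hr
      have h7 := h2 (fun i => r (Fin.castAdd 1 i)) (fun i => r' (Fin.castAdd 1 i))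
        (fun i => hr _)
      rw [wt_last r, wt_last r']
      have h8 : (if r (Fin.last k) = true then 1 else 0 : ℕ) ≤
          (if r' (Fin.last k) = true then 1 else 0) := by
        split_ifs with h9 h10
        · exact le_rfl
        · exact absurd (le_imp (hr _) h9) h10
        · exact Nat.zero_le _
        · exact le_rfl
      omega
    · refine le_trans (Nat.mul_le_mul_right _ (card_le_card ?_)) (hmul _ inferInstance _ h5)
      intro r hr
      rw [mem_filter] at hr ⊢
      refine ⟨mem_univ _, ?_⟩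
      have h7 := hr.2
      rw [wt_last r] at h7
      obtain ⟨c, hc⟩ := hev
      split_ifs at h7 <;> omega
    · refine le_trans (Nat.mul_le_mul_right _ (card_le_card ?_)) (hmul _ inferInstance _ h6)
      intro r hr
      rw [mem_filter] at hr ⊢
      refine ⟨mem_univ _, ?_⟩
      have h7 := hr.2
      rw [wt_last r] at h7
      obtain ⟨c, hc⟩ := hev
      split_ifs at h7 <;> omega

end Pool.Agent.H529R2
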