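import Pool.Agent.H529R2.Tail

/-!
# Strings cut into blocks; the middle slice; the block potential
-/

namespace Pool.Agent.H529R2

open Finset

/-- The Hamming weight of a bit string. -/
def wt {m : ℕ} (r : Fin m → Bool) : ℕ := (univ.filter (fun i => r i = true)).card

/-- The complement of a bit string. -/
def neg {m : ℕ} (r : Fin m → Bool) : Fin m → Bool := fun i => !(r i)

/-- The `i`-th block of length `b` of a string of length `t * b`. -/
def blk {t b : ℕ} (r : Fin (t * b) → Bool) (i : Fin t) : Fin b → Bool :=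
  fun j => r (finProdFinEquiv (i, j))

/-- A string of length `t * b` is the same as a sequence of its blocks. -/
def blkEquiv (t b : ℕ) : (Fin (t * b) → Bool) ≃ (Fin t → Fin b → Bool) :=
  (Equiv.arrowCongr finProdFinEquiv.symm (Equiv.refl Bool)).trans (Equiv.curry _ _ _)

theorem blkEquiv_apply {t b : ℕ} (r : Fin (t * b) → Bool) : blkEquiv t b r = blk r := rfl

theorem card_blk (t b : ℕ) (P : (Fin t → Fin b → Bool) → Prop) [DecidablePred P] :
    (univ.filter (fun r : Fin (t * b) → Bool => P (blk r))).card = (univ.filter P).card := by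
  refine Finset.card_bij' (fun r _ => blkEquiv t b r) (fun s _ => (blkEquiv t b).symm s) ?_ ?_ ?_ ?_
  · intro r hr
    rw [mem_filter] at hr ⊢
    exact ⟨mem_univ _, hr.2⟩
  · intro s hs
    rw [mem_filter] at hs ⊢
    refine ⟨mem_univ _, ?_⟩
    rw [← blkEquiv_apply, Equiv.apply_symm_apply]
    exact hs.2
  · intro r _
    exact Equiv.symm_apply_apply _ _
  · intro s _
    exact Equiv.apply_symm_apply _ _

theorem wt_eq_sum {m : ℕ} (r : Fin m → Bool) : wt r = ∑ i, if r i = true then 1 else 0 := by
  rw [wt, card_filter]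

theorem wt_blk {t b : ℕ} (r : Fin (t * b) → Bool) : wt r = ∑ i, wt (blk r i) := by
  rw [wt_eq_sum]
  simp_rw [wt_eq_sum]
  rw [← Equiv.sum_comp finProdFinEquiv, Fintype.sum_prod_type]
  rfl

theorem le_imp {a b : Bool} (h : a ≤ b) (ha : a = true) : b = true := by
  subst ha
  cases b
  · exact absurd h (by decide)
  · rfl

theorem wt_mono {m : ℕ} {r s : Fin m → Bool} (h : r ≤ s) : wt r ≤ wt s := by
  refine card_le_card fun i hi => ?_
  rw [mem_filter] at hi ⊢
  exact ⟨mem_univ _, le_imp (h i) hi.2⟩

theorem wt_lt {m : ℕ} {r s : Fin m → Bool} (h : r ≤ s) (hne : r ≠ s) : wt r < wt s := by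
  refine card_lt_card ⟨fun i hi => ?_, fun hsub => hne ?_⟩
  · rw [mem_filter] at hi ⊢
    exact ⟨mem_univ _, le_imp (h i) hi.2⟩
  · funext i
    cases hr : r i with
    | true => exact (le_imp (h i) hr).symm
    | false =>
      cases hs : s i with
      | false => rfl
      | true =>
        have h2 : i ∈ univ.filter (fun i => r i = true) := hsub (by simp [hs])
        rw [mem_filter, hr] at h2
        simp at h2

theorem wt_neg {m : ℕ} (r : Fin m → Bool) : wt (neg r) + wt r = m := by
  rw [wt_eq_sum, wt_eq_sum, ← sum_add_distrib]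
  have : ∀ i : Fin m, ((if neg r i = true then 1 else 0) + (if r i = true then 1 else 0) : ℕ) = 1 := by
    intro i
    unfold neg
    cases r i <;> simp
  rw [sum_congr rfl fun i _ => this i]
  simp

theorem neg_neg {m : ℕ} (r : Fin m → Bool) : neg (neg r) = r := by
  funext i; simp [neg]

theorem neg_le_neg {m : ℕ} {r s : Fin m → Bool} (h : r ≤ s) : neg s ≤ neg r := by
  intro i
  have := h i
  unfold neg
  cases hr : r i <;> cases hs : s i <;> simp_all

theorem wt_le {m : ℕ} (r : Fin m → Bool) : wt r ≤ m := by
  have := wt_neg r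
  omega

/-- The sum of the weights of all strings. -/
theorem sum_wt (m : ℕ) : 2 * ∑ r : Fin m → Bool, wt r = m * 2 ^ m := by
  have h1 : ∑ r : Fin m → Bool, wt (neg r) = ∑ r : Fin m → Bool, wt r := by
    refine Fintype.sum_equiv (Function.Involutive.toPerm neg neg_neg) _ _ fun r => rfl
  have h2 : ∑ r : Fin m → Bool, (wt (neg r) + wt r) = m * 2 ^ m := by
    rw [sum_congr rfl fun r _ => wt_neg r]
    simp [mul_comm]
  rw [sum_add_distrib, h1] at h2
  omega

/-- The number of strings in the middle slice. -/
theorem middle_card (h : ℕ) (hh : 0 < h) : 2 ^ (2 * h) ≤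
    2 * h * (univ.filter (fun s : Fin (2 * h) → Bool => 2 * wt s = 2 * h)).card := by
  have h1 : (powersetCard h (univ : Finset (Fin (2 * h)))).card ≤
      (univ.filter (fun s : Fin (2 * h) → Bool => 2 * wt s = 2 * h)).card := by
    refine card_le_card_of_injOn (fun S i => decide (i ∈ S)) ?_ ?_
    · intro S hS
      have hS' : S ∈ powersetCard h univ := hS
      rw [mem_powersetCard] at hS'
      rw [mem_coe, mem_filter]
      refine ⟨mem_univ _, ?_⟩
      have : wt (fun i => decide (i ∈ S)) = S.card := by
        rw [wt]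
        congr 1
        ext i
        simp
      rw [this, hS'.2]
    · intro S _ T _ hST
      ext i
      have := congrFun hST i
      simpa using this
  rw [card_powersetCard, card_univ, Fintype.card_fin, ← Nat.centralBinom_eq_two_mul_choose] at h1
  calc 2 ^ (2 * h) = 4 ^ h := by rw [pow_mul]; norm_num
    _ ≤ 2 * h * Nat.centralBinom h := Nat.four_pow_le_two_mul_self_mul_centralBinom h hh
    _ ≤ _ := Nat.mul_le_mul_left _ h1

end Pool.Agent.H529R2
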