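import Pool.Agent.NPC.Dec

/-!
# Randomized complexity classes

Machines are polynomial-time computable functions on bit strings; a machine reads the pair of the
input `x` and a coin string `r`, and accepts if its output is the one-letter string `1`.
-/

namespace Pool.Agent.H529R2

open Finset Pool.Agent.NPC

/-- The set of the coin strings `r ∈ {0,1}^m` with which `V` accepts the input `x`. -/
def accepts (V : List Bool → List Bool) (x : List Bool) (m : ℕ) : Finset (Fin m → Bool) :=
  univ.filter (fun r => V (pairBits x (List.ofFn r)) = [true])

/-- The class `RP`: for some polynomial-time machine `V` and polynomial `p`, no coin string in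
`{0,1}^{p(|x|)}` is accepted if `x ∉ L`, and at least half of them are accepted if `x ∈ L`. -/
def InRP (L : Set (List Bool)) : Prop :=
  ∃ (V : List Bool → List Bool) (p : Polynomial ℕ), PolyTime V ∧ ∀ x : List Bool,
    (x ∉ L → accepts V x (p.eval x.length) = ∅) ∧
    (x ∈ L → 2 ^ p.eval x.length ≤ 2 * (accepts V x (p.eval x.length)).card)

end Pool.Agent.H529R2
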