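import Pool.Agent.H529R2.Block

/-!
# The potential of a string: its weight plus the number of good balanced blocks
-/

namespace Pool.Agent.H529R2

open Finset

variable {t b : ℕ}

/-- A block counts if it is balanced and `F` holds. -/
def bon (F : (Fin b → Bool) → Bool) (s : Fin b → Bool) : ℕ :=
  if 2 * wt s = b ∧ F s = true then 1 else 0

/-- The number of balanced blocks on which `F` holds. -/
def bonus (F : (Fin b → Bool) → Bool) (r : Fin (t * b) → Bool) : ℕ := ∑ i : Fin t, bon F (blk r i)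

theorem bon_le (F : (Fin b → Bool) → Bool) (s : Fin b → Bool) : bon F s ≤ 1 := by
  unfold bon
  split_ifs <;> omega

theorem bonus_zero {F : (Fin b → Bool) → Bool} (hF : ∀ s, F s = false)
    (r : Fin (t * b) → Bool) : bonus F r = 0 := by
  refine sum_eq_zero fun i _ => ?_
  rw [bon, hF]
  simp

theorem blk_mono {r r' : Fin (t * b) → Bool} (h : r ≤ r') (i : Fin t) : blk r i ≤ blk r' i :=
  fun _ => h _

theorem blk_neg (r : Fin (t * b) → Bool) (i : Fin t) : blk (neg r) i = neg (blk r i) := rfl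

theorem pot_blk_mono (F : (Fin b → Bool) → Bool) {s s' : Fin b → Bool} (h : s ≤ s') :
    wt s + bon F s ≤ wt s' + bon F s' := by
  by_cases hs : s = s'
  · rw [hs]
  · have h1 := wt_lt h hs
    have h2 := bon_le F s
    omega

/-- The potential is increasing. -/
theorem pot_mono (F : (Fin b → Bool) → Bool) {r r' : Fin (t * b) → Bool} (h : r ≤ r') :
    wt r + bonus F r ≤ wt r' + bonus F r' := by
  rw [wt_blk r, wt_blk r', bonus, bonus, ← sum_add_distrib, ← sum_add_distrib]
  exact sum_le_sum fun i _ => pot_blk_mono F (blk_mono h i)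

theorem bonus_neg {F : (Fin b → Bool) → Bool} (hF : ∀ s, F (neg s) = F s)
    (r : Fin (t * b) → Bool) : bonus F (neg r) = bonus F r := by
  refine sum_congr rfl fun i _ => ?_
  rw [blk_neg, bon, bon, hF]
  have := wt_neg (blk r i)
  congr 1
  have h : (2 * wt (neg (blk r i)) = b) ↔ (2 * wt (blk r i) = b) := by omega
  rw [h]

theorem bonus_le (F : (Fin b → Bool) → Bool) (r : Fin (t * b) → Bool) : bonus F r ≤ t := by
  calc bonus F r ≤ ∑ _i : Fin t, 1 := sum_le_sum fun i _ => bon_le F _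
    _ = t := by simp

/-- If `F` holds on most blocks then the average of `bon F` is at least `1 / (2 b)`. -/
theorem sum_bon' {h : ℕ} (hh : 0 < h) (F : (Fin (2 * h) → Bool) → Bool)
    (hF : (univ.filter (fun s => F s = false)).card * (2 * (2 * h)) ≤ 2 ^ (2 * h)) :
    2 ^ (2 * h) ≤ 2 * (2 * h) * ∑ s, bon F s := by
  have h1 := middle_card h hh
  have h2 : ∑ s, bon F s = (univ.filter (fun s : Fin (2 * h) → Bool =>
      2 * wt s = 2 * h ∧ F s = true)).card := by
    rw [card_filter]
    rfl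
  have h3 : (univ.filter (fun s : Fin (2 * h) → Bool => 2 * wt s = 2 * h)).card ≤
      (univ.filter (fun s : Fin (2 * h) → Bool => 2 * wt s = 2 * h ∧ F s = true)).card +
      (univ.filter (fun s => F s = false)).card := by
    rw [← card_union_of_disjoint]
    · refine card_le_card fun s hs => ?_
      rw [mem_union, mem_filter, mem_filter]
      rw [mem_filter] at hs
      cases hs' : F s with
      | true => exact Or.inl ⟨mem_univ _, hs.2, rfl⟩
      | false => exact Or.inr ⟨mem_univ _, rfl⟩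
    · rw [disjoint_left]
      intro s hs hs'
      rw [mem_filter] at hs hs'
      rw [hs'.2] at hs
      exact absurd hs.2.2 (by simp)
  rw [h2]
  nlinarith

/-- If `F` holds on most blocks then the average of `bon F` is at least `1 / (2 b)`. -/
theorem sum_bon {b : ℕ} (hb : 0 < b) (he : Even b) (F : (Fin b → Bool) → Bool)
    (hF : (univ.filter (fun s => F s = false)).card * (2 * b) ≤ 2 ^ b) :
    2 ^ b ≤ 2 * b * ∑ s, bon F s := by
  obtain ⟨h, hh⟩ := he
  have hc2 : b = 2 * h := by omega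
  subst hc2
  exact sum_bon' (by omega) F hF

/-- Few strings have a small bonus. -/
theorem few_small_bonus' {h : ℕ} (hh : 0 < h) (F : (Fin (2 * h) → Bool) → Bool)
    (hF : (univ.filter (fun s => F s = false)).card * (2 * (2 * h)) ≤ 2 ^ (2 * h)) (Q t : ℕ)
    (ht : t = 1024 * (2 * h) ^ 4 * Q) :
    (univ.filter (fun r : Fin (t * (2 * h)) → Bool =>
      bonus F r ≤ 256 * (2 * h) ^ 3 * Q)).card * 2 ^ Q ≤ 2 ^ (t * (2 * h)) := by
  obtain ⟨b, hb⟩ : ∃ b : ℕ, b = 2 * h := ⟨_, rfl⟩
  have hbpos : 0 < b := by omega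
  have hs := sum_bon' hh F hF
  subst hb
  have hbR : (0 : ℝ) < ((2 * h : ℕ) : ℝ) := by exact_mod_cast hbpos
  have hb1 : (1 : ℝ) ≤ ((2 * h : ℕ) : ℝ) := by exact_mod_cast hbpos
  set B : ℝ := ((2 * h : ℕ) : ℝ) with hBdef
  have key := tail_two (α := Fin (2 * h) → Bool) (fun s => (bon F s : ℝ) - 1 / (4 * B))
    (B := 1) (δ := 1 / (4 * B)) one_pos (by
      intro s
      have h1 := bon_le F s
      have h1' : (bon F s : ℝ) ≤ 1 := by exact_mod_cast h1
      have h2 : (0 : ℝ) ≤ bon F s := Nat.cast_nonneg _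
      have h3 : 1 / (4 * B) ≤ 1 := by
        rw [div_le_one (by positivity)]
        linarith
      have h4 : 0 ≤ 1 / (4 * B) := by positivity
      rw [abs_le]
      constructor <;> linarith) (by positivity) (by
      rw [sum_sub_distrib]
      simp only [sum_const, card_univ, nsmul_eq_mul, Fintype.card_fun, Fintype.card_bool,
        Fintype.card_fin]
      have h1 : ((2 ^ (2 * h) : ℕ) : ℝ) ≤ 2 * B * ∑ s, (bon F s : ℝ) := by
        rw [hBdef]
        exact_mod_cast hs
      have h2 : 1 / (4 * B) * ((2 ^ (2 * h) : ℕ) : ℝ) + ((2 ^ (2 * h) : ℕ) : ℝ) * (1 / (4 * B)) =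
          (1 / (2 * B)) * ((2 ^ (2 * h) : ℕ) : ℝ) := by
        field_simp
        ring
      have h3 : (1 / (2 * B)) * ((2 ^ (2 * h) : ℕ) : ℝ) ≤
          (1 / (2 * B)) * (2 * B * ∑ s, (bon F s : ℝ)) :=
        mul_le_mul_of_nonneg_left h1 (by positivity)
      have h4 : (1 / (2 * B)) * (2 * B * ∑ s, (bon F s : ℝ)) = ∑ s, (bon F s : ℝ) := by
        field_simp
      linarith) t Q (by
      rw [ht]
      push_cast
      have h1 : (2 * (h : ℝ)) = B := by rw [hBdef]; push_cast; ring
      rw [h1]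
      have h2 : (1024 * B ^ 4 * (Q : ℝ)) * ((1 / (4 * B)) ^ 2 / (4 * 1 ^ 2)) =
          16 * B ^ 2 * Q := by
        field_simp
        ring
      rw [h2]
      have h3 : (0 : ℝ) ≤ Q := Nat.cast_nonneg _
      nlinarith [mul_nonneg h3 (by nlinarith : (0 : ℝ) ≤ 16 * B ^ 2 - 1)])
  have e1 : Fintype.card (Fin (2 * h) → Bool) ^ t = 2 ^ (t * (2 * h)) := by
    simp only [Fintype.card_fun, Fintype.card_bool, Fintype.card_fin]
    rw [← pow_mul, mul_comm]
  rw [e1] at key
  refine le_trans (Nat.mul_le_mul_right _ (le_of_eq ?_)) key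
  rw [← card_blk t (2 * h) (fun g => ∑ i, ((bon F (g i) : ℝ) - 1 / (4 * B)) ≤ 0)]
  congr 1
  ext r
  simp only [mem_filter, mem_univ, true_and]
  rw [sum_sub_distrib]
  simp only [sum_const, card_univ, nsmul_eq_mul, Fintype.card_fin]
  have h1 : (bonus F r : ℝ) = ∑ i, (bon F (blk r i) : ℝ) := by
    rw [bonus]
    push_cast
    rfl
  rw [← h1, sub_nonpos]
  have h2 : (t : ℝ) * (1 / (4 * B)) = ((256 * (2 * h) ^ 3 * Q : ℕ) : ℝ) := by
    rw [ht]
    push_cast
    have h3 : (2 * (h : ℝ)) = B := by rw [hBdef]; push_cast; ring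
    rw [h3]
    field_simp
    ring
  rw [h2]
  exact_mod_cast Iff.rfl

/-- Few strings have a small bonus. -/
theorem few_small_bonus {b : ℕ} (hb : 0 < b) (he : Even b) (F : (Fin b → Bool) → Bool)
    (hF : (univ.filter (fun s => F s = false)).card * (2 * b) ≤ 2 ^ b) (Q t : ℕ)
    (ht : t = 1024 * b ^ 4 * Q) :
    (univ.filter (fun r : Fin (t * b) → Bool =>
      bonus F r ≤ 256 * b ^ 3 * Q)).card * 2 ^ Q ≤ 2 ^ (t * b) := by
  obtain ⟨h, hh⟩ := he
  have hc2 : b = 2 * h := by omega
  subst hc2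
  exact few_small_bonus' (by omega) F hF Q t ht

/-- Few strings are heavy. -/
theorem few_heavy {b : ℕ} (hb : 0 < b) (Q t : ℕ) (ht : t = 1024 * b ^ 4 * Q) :
    (univ.filter (fun r : Fin (t * b) → Bool =>
      t * b + 256 * b ^ 3 * Q ≤ 2 * wt r)).card * 2 ^ Q ≤ 2 ^ (t * b) := by
  rcases Nat.eq_zero_or_pos Q with hQ | hQ
  · subst hQ
    rw [pow_zero, mul_one]
    refine (card_le_univ _).trans ?_
    simp
  have hbR : (0 : ℝ) < (b : ℝ) := by exact_mod_cast hb
  have hb1 : (1 : ℝ) ≤ (b : ℝ) := by exact_mod_cast hb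
  have key := tail_two (α := Fin b → Bool) (fun s => (b : ℝ) / 2 - wt s + 1 / (8 * b))
    (B := 2 * b) (δ := 1 / (8 * b)) (by positivity) (by
      intro s
      have h1 : (wt s : ℝ) ≤ b := by exact_mod_cast wt_le s
      have h2 : (0 : ℝ) ≤ wt s := Nat.cast_nonneg _
      have h3 : 1 / (8 * (b : ℝ)) ≤ 1 := by
        rw [div_le_one (by positivity)]
        linarith
      have h4 : 0 ≤ 1 / (8 * (b : ℝ)) := by positivity
      rw [abs_le]
      constructor <;> linarith) (by positivity) (by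
      rw [sum_add_distrib, sum_sub_distrib]
      simp only [sum_const, card_univ, nsmul_eq_mul, Fintype.card_fun, Fintype.card_bool,
        Fintype.card_fin]
      have h1 : 2 * ∑ s : Fin b → Bool, (wt s : ℝ) = b * ((2 ^ b : ℕ) : ℝ) := by
        exact_mod_cast sum_wt b
      linarith) t Q (by
      rw [ht]
      push_cast
      have h2 : (1024 * (b : ℝ) ^ 4 * (Q : ℝ)) * ((1 / (8 * (b : ℝ))) ^ 2 / (4 * (2 * b) ^ 2)) =
          Q := by
        field_simp
        ring
      rw [h2])
  have e1 : Fintype.card (Fin b → Bool) ^ t = 2 ^ (t * b) := by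
    simp only [Fintype.card_fun, Fintype.card_bool, Fintype.card_fin]
    rw [← pow_mul, mul_comm]
  rw [e1] at key
  refine le_trans (Nat.mul_le_mul_right _ (le_of_eq ?_)) key
  rw [← card_blk t b (fun g => ∑ i, ((b : ℝ) / 2 - wt (g i) + 1 / (8 * b)) ≤ 0)]
  congr 1
  ext r
  simp only [mem_filter, mem_univ, true_and]
  rw [sum_add_distrib, sum_sub_distrib]
  simp only [sum_const, card_univ, nsmul_eq_mul, Fintype.card_fin]
  have h1 : (wt r : ℝ) = ∑ i, (wt (blk r i) : ℝ) := by
    rw [wt_blk r]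
    push_cast
    rfl
  rw [← h1]
  have h2 : (t : ℝ) * (1 / (8 * b)) = ((256 * b ^ 3 * Q : ℕ) : ℝ) / 2 := by
    rw [ht]
    push_cast
    field_simp
    ring
  rw [h2]
  constructor
  · intro h
    have h3 : ((t * b + 256 * b ^ 3 * Q : ℕ) : ℝ) ≤ ((2 * wt r : ℕ) : ℝ) := by exact_mod_cast h
    push_cast at h3 ⊢
    linarith
  · intro h
    have h3 : ((t * b + 256 * b ^ 3 * Q : ℕ) : ℝ) ≤ ((2 * wt r : ℕ) : ℝ) := by
      push_cast at h ⊢
      linarith
    exact_mod_cast h3

theorem card_neg {m : ℕ} (P : (Fin m → Bool) → Prop) [DecidablePred P] :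
    (univ.filter (fun r : Fin m → Bool => P (neg r))).card = (univ.filter P).card := by
  refine Finset.card_bij' (fun r _ => neg r) (fun s _ => neg s) ?_ ?_ ?_ ?_
  · intro r hr
    rw [mem_filter] at hr ⊢
    exact ⟨mem_univ _, hr.2⟩
  · intro s hs
    rw [mem_filter] at hs ⊢
    refine ⟨mem_univ _, ?_⟩
    rw [neg_neg]
    exact hs.2
  · intro r _
    exact neg_neg r
  · intro s _
    exact neg_neg s

/-- Few strings are light. -/
theorem few_light {b : ℕ} (hb : 0 < b) (Q t : ℕ) (ht : t = 1024 * b ^ 4 * Q) :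
    (univ.filter (fun r : Fin (t * b) → Bool =>
      2 * wt r + 256 * b ^ 3 * Q ≤ t * b)).card * 2 ^ Q ≤ 2 ^ (t * b) := by
  refine le_trans (Nat.mul_le_mul_right _ (le_of_eq ?_)) (few_heavy hb Q t ht)
  rw [← card_neg]
  congr 1
  ext r
  simp only [mem_filter, mem_univ, true_and]
  have := wt_neg r
  omega

end Pool.Agent.H529R2
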