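import Mathlib

/-!
# A tail bound for sums over independent blocks, in counting form
-/

namespace Pool.Agent.H529R2

open Finset

/-- Elementary exponential bound. -/
theorem exp_neg_le {u : ℝ} (hu : |u| ≤ 1) : Real.exp (-u) ≤ 1 - u + u ^ 2 := by
  have h := Real.abs_exp_sub_one_sub_id_le (x := -u) (by rwa [abs_neg])
  have h2 := (abs_le.1 h).2
  nlinarith

/-- If the average of `z` is at least `δ ≥ 0` and `|z| ≤ B`, then few tuples have nonpositive
sum. -/
theorem tail_le {α : Type} [Fintype α] [Nonempty α] (z : α → ℝ) {B δ : ℝ}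
    (hB : 0 < B) (hz : ∀ a, |z a| ≤ B) (hδ : 0 ≤ δ)
    (hm : δ * Fintype.card α ≤ ∑ a, z a) (t : ℕ) :
    (((univ : Finset (Fin t → α)).filter (fun r => ∑ i, z (r i) ≤ 0)).card : ℝ) ≤
      (Fintype.card α : ℝ) ^ t * (1 - δ ^ 2 / (4 * B ^ 2)) ^ t := by
  have hcard : (0 : ℝ) < Fintype.card α := by exact_mod_cast Fintype.card_pos
  have hδB : δ ≤ B := by
    have h1 : ∑ a, z a ≤ ∑ _a : α, B := sum_le_sum fun a _ => (abs_le.1 (hz a)).2
    rw [sum_const, card_univ, nsmul_eq_mul] at h1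
    have h2 : δ * Fintype.card α ≤ B * Fintype.card α := by linarith
    exact le_of_mul_le_mul_right h2 hcard
  set l : ℝ := δ / (2 * B ^ 2) with hl
  have hl0 : 0 ≤ l := by positivity
  have hlB : l * B ≤ 1 := by
    rw [hl, div_mul_eq_mul_div, div_le_one (by positivity)]
    nlinarith
  have hstep : ∀ a, Real.exp (-(l * z a)) ≤ 1 - l * z a + l ^ 2 * B ^ 2 := by
    intro a
    have h1 : |l * z a| ≤ 1 := by
      rw [abs_mul, abs_of_nonneg hl0]
      exact (mul_le_mul_of_nonneg_left (hz a) hl0).trans hlB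
    have h2 := exp_neg_le h1
    have h3 : (z a) ^ 2 ≤ B ^ 2 := sq_le_sq' (by have := (abs_le.1 (hz a)).1; linarith)
      (abs_le.1 (hz a)).2
    have h4 : (l * z a) ^ 2 ≤ l ^ 2 * B ^ 2 := by
      rw [mul_pow]
      exact mul_le_mul_of_nonneg_left h3 (by positivity)
    linarith
  have hsum : ∑ a, Real.exp (-(l * z a)) ≤ Fintype.card α * (1 - δ ^ 2 / (4 * B ^ 2)) := by
    have h1 : ∑ a, Real.exp (-(l * z a)) ≤ ∑ a, (1 - l * z a + l ^ 2 * B ^ 2) :=
      sum_le_sum fun a _ => hstep a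
    have h2 : ∑ a, (1 - l * z a + l ^ 2 * B ^ 2) =
        Fintype.card α - l * ∑ a, z a + Fintype.card α * (l ^ 2 * B ^ 2) := by
      rw [sum_add_distrib, sum_sub_distrib, ← mul_sum]
      simp
    have h3 : l * (δ * Fintype.card α) ≤ l * ∑ a, z a := mul_le_mul_of_nonneg_left hm hl0
    have h4 : l * δ = δ ^ 2 / (2 * B ^ 2) := by rw [hl]; ring
    have h5 : l ^ 2 * B ^ 2 = δ ^ 2 / (4 * B ^ 2) := by
      rw [hl]
      field_simp
      ring
    have h6 : δ ^ 2 / (2 * B ^ 2) = 2 * (δ ^ 2 / (4 * B ^ 2)) := by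
      field_simp
      ring
    rw [h2] at h1
    rw [h5] at h1
    have h7 : l * (δ * Fintype.card α) = Fintype.card α * (2 * (δ ^ 2 / (4 * B ^ 2))) := by
      rw [← h6, ← h4]; ring
    rw [h7] at h3
    linarith
  have hexp : ∀ r : Fin t → α, (if ∑ i, z (r i) ≤ 0 then (1 : ℝ) else 0) ≤
      ∏ i, Real.exp (-(l * z (r i))) := by
    intro r
    rw [← Real.exp_sum, sum_neg_distrib, ← mul_sum]
    split_ifs with h
    · rw [Real.one_le_exp_iff]
      nlinarith
    · exact (Real.exp_pos _).le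
  calc (((univ : Finset (Fin t → α)).filter (fun r => ∑ i, z (r i) ≤ 0)).card : ℝ)
      = ∑ r : Fin t → α, (if ∑ i, z (r i) ≤ 0 then (1 : ℝ) else 0) := by
        rw [card_filter]
        push_cast
        rfl
    _ ≤ ∑ r : Fin t → α, ∏ i, Real.exp (-(l * z (r i))) := sum_le_sum fun r _ => hexp r
    _ = ∏ _i : Fin t, ∑ a, Real.exp (-(l * z a)) := by
        rw [Finset.prod_univ_sum, Fintype.piFinset_univ]
    _ = (∑ a, Real.exp (-(l * z a))) ^ t := by
        rw [prod_const, card_univ, Fintype.card_fin]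
    _ ≤ (Fintype.card α * (1 - δ ^ 2 / (4 * B ^ 2))) ^ t :=
        pow_le_pow_left₀ (sum_nonneg fun a _ => (Real.exp_pos _).le) hsum t
    _ = _ := mul_pow _ _ _

/-- Power-of-two form of the tail bound. -/
theorem tail_two {α : Type} [Fintype α] [Nonempty α] (z : α → ℝ) {B δ : ℝ}
    (hB : 0 < B) (hz : ∀ a, |z a| ≤ B) (hδ : 0 ≤ δ)
    (hm : δ * Fintype.card α ≤ ∑ a, z a) (t Q : ℕ) (hQ : (Q : ℝ) ≤ t * (δ ^ 2 / (4 * B ^ 2))) :
    ((univ : Finset (Fin t → α)).filter (fun r => ∑ i, z (r i) ≤ 0)).card * 2 ^ Q ≤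
      Fintype.card α ^ t := by
  have h := tail_le z hB hz hδ hm t
  have hcard : (0 : ℝ) < Fintype.card α := by exact_mod_cast Fintype.card_pos
  have hδB : δ ≤ B := by
    have h1 : ∑ a, z a ≤ ∑ _a : α, B := sum_le_sum fun a _ => (abs_le.1 (hz a)).2
    rw [sum_const, card_univ, nsmul_eq_mul] at h1
    have h2 : δ * Fintype.card α ≤ B * Fintype.card α := by linarith
    exact le_of_mul_le_mul_right h2 hcard
  set y : ℝ := δ ^ 2 / (4 * B ^ 2) with hy
  have hy1 : y ≤ 1 := by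
    rw [hy, div_le_one (by positivity)]
    nlinarith
  have h1 : (1 - y) ^ t ≤ Real.exp (-(t * y)) := by
    have h2 : 1 - y ≤ Real.exp (-y) := by
      have := Real.add_one_le_exp (-y)
      linarith
    calc (1 - y) ^ t ≤ (Real.exp (-y)) ^ t := pow_le_pow_left₀ (by linarith) h2 t
      _ = Real.exp (-(t * y)) := by rw [← Real.exp_nat_mul]; ring_nf
  have h2 : Real.exp (-(t * y)) * 2 ^ Q ≤ 1 := by
    have h3 : (2 : ℝ) ^ Q ≤ Real.exp Q := by
      have h4 : (2 : ℝ) ≤ Real.exp 1 := by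
        have := Real.add_one_le_exp (1 : ℝ)
        linarith
      calc (2 : ℝ) ^ Q ≤ (Real.exp 1) ^ Q := pow_le_pow_left₀ (by norm_num) h4 Q
        _ = Real.exp Q := by rw [← Real.exp_nat_mul, mul_one]
    calc Real.exp (-(t * y)) * 2 ^ Q ≤ Real.exp (-(t * y)) * Real.exp Q :=
          mul_le_mul_of_nonneg_left h3 (Real.exp_pos _).le
      _ = Real.exp (Q - t * y) := by rw [← Real.exp_add]; ring_nf
      _ ≤ 1 := by rw [Real.exp_le_one_iff]; linarith
  have h3 : (((univ : Finset (Fin t → α)).filter (fun r => ∑ i, z (r i) ≤ 0)).card : ℝ) * 2 ^ Q ≤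
      (Fintype.card α : ℝ) ^ t := by
    calc (((univ : Finset (Fin t → α)).filter (fun r => ∑ i, z (r i) ≤ 0)).card : ℝ) * 2 ^ Q
        ≤ ((Fintype.card α : ℝ) ^ t * (1 - y) ^ t) * 2 ^ Q :=
          mul_le_mul_of_nonneg_right h (by positivity)
      _ ≤ ((Fintype.card α : ℝ) ^ t * Real.exp (-(t * y))) * 2 ^ Q :=
          mul_le_mul_of_nonneg_right (mul_le_mul_of_nonneg_left h1 (by positivity))
            (by positivity)
      _ = (Fintype.card α : ℝ) ^ t * (Real.exp (-(t * y)) * 2 ^ Q) := by ring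
      _ ≤ (Fintype.card α : ℝ) ^ t * 1 := mul_le_mul_of_nonneg_left h2 (by positivity)
      _ = _ := mul_one _
  exact_mod_cast h3

end Pool.Agent.H529R2
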